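import Pool.Agent.VTP.StmtsT

set_option autoImplicit false

/-! Row TFL: crossing changes of a twist word. -/

namespace Pool.Agent.VTP.H1

open Finset Pool.Agent.ZOL Pool.Agent.VTP

lemma flip_append (S : Finset ℕ) (u v : Word) : flip S (u ++ v) = flip S u ++ flip S v := by
  simp [ZOL.flip]

lemma flip_seg (S : Finset ℕ) (ov : ℕ → Bool) (ls : List ℕ) : ∀ s : Bool,
    flip S (seg ov s ls) = seg (fun l => if l ∈ S then !ov l else ov l) s ls := by
  induction ls with
  | nil => intro s; simp [ZOL.flip, seg]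
  | cons a l ih =>
    intro s
    have h := ih (!s)
    rw [ZOL.flip] at h ⊢
    rw [seg, List.map_cons, h, seg]
    by_cases ha : a ∈ S
    · simp [ha]
    · simp [ha]

lemma flip_bar (S : Finset ℕ) (w : Word) : flip S (w.reverse.map bar) =
    (flip S w).reverse.map bar := by
  rw [ZOL.flip, ZOL.flip, ← List.map_reverse, List.map_map, List.map_map]
  apply List.map_congr_left
  intro l _
  simp only [Function.comp, bar]
  by_cases h : l.1 ∈ S
  · simp [h]
  · simp [h]

theorem tfl : TflStmt := by
  intro S ls ov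
  rw [tg, tg, flip_append, flip_append, flip_append, flip_bar, flip_seg]
  congr 1
  congr 1
  · congr 1
    by_cases h0 : (0 : ℕ) ∈ S <;> by_cases h1 : (1 : ℕ) ∈ S <;> simp [ZOL.flip, h0, h1]
  · by_cases h0 : (0 : ℕ) ∈ S <;> by_cases h1 : (1 : ℕ) ∈ S <;> simp [ZOL.flip, h0, h1]

end Pool.Agent.VTP.H1
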